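import Pool.Agent.P.MP_ecb6bc_gt.Germ

/-! Every biharmonic hypersurface of the unit sphere has constant mean curvature. -/

set_option autoImplicit false

namespace Pool.Agent.Results.MP_ecb6bc_gt.ConstantMeanCurvature

open Matrix
open scoped ContDiff

theorem result (m : ℕ) (U : Set (Fin m → ℝ)) (hU : IsOpen U) (hc : IsConnected U)
    (φ : (Fin m → ℝ) → Fin (m + 2) → ℝ) (hφ : ContDiffOn ℝ ∞ φ U)
    (hsphere : ∀ x ∈ U, φ x ⬝ᵥ φ x = 1)
    (himm : ∀ x ∈ U, LinearIndependent ℝ fun i : Fin m => BiH.pv i φ x)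
    (hb : ∀ x ∈ U, BiH.bitension φ x = 0) :
    ∃ c : ℝ, ∀ x ∈ U, BiH.tension φ x ⬝ᵥ BiH.tension φ x = c :=
  BiH.cmc U hU hc.isPreconnected φ hφ hsphere himm hb

end Pool.Agent.Results.MP_ecb6bc_gt.ConstantMeanCurvature
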