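import Pool.Agent.P.MP_ecb6bc_gt.KF1
import Pool.Agent.P.MP_ecb6bc_gt.KF2

/-! Classification of the proper biharmonic hypersurfaces of the unit sphere up to dimension
seven. -/

set_option autoImplicit false

namespace Pool.Agent.Results.MP_ecb6bc_gt.LowDimension

open Matrix
open scoped ContDiff

theorem result (m : ℕ) (hm : m ≤ 7) (M : Type*) [TopologicalSpace M]
    [ChartedSpace (Fin m → ℝ) M] [ConnectedSpace M] (φ : M → Fin (m + 2) → ℝ)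
    (hsphere : ∀ p, φ p ⬝ᵥ φ p = 1)
    (hφ : ∀ e ∈ atlas (Fin m → ℝ) M, ContDiffOn ℝ ∞ (φ ∘ e.symm) e.target)
    (himm : ∀ e ∈ atlas (Fin m → ℝ) M, ∀ x ∈ e.target,
      LinearIndependent ℝ fun i : Fin m => BiH.pv i (φ ∘ e.symm) x)
    (hb : ∀ e ∈ atlas (Fin m → ℝ) M, ∀ x ∈ e.target, BiH.bitension (φ ∘ e.symm) x = 0)
    (hp : ∃ e ∈ atlas (Fin m → ℝ) M, ∃ x ∈ e.target, BiH.tension (φ ∘ e.symm) x ≠ 0) :
    ∃ O ∈ Matrix.orthogonalGroup (Fin (m + 2)) ℝ, ∃ W : Set (Fin (m + 2) → ℝ), IsOpen W ∧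
      ((Set.range fun p => O *ᵥ φ p) =
          W ∩ {y | y ⬝ᵥ y = 1 ∧ y (Fin.last (m + 1)) = 1 / Real.sqrt 2} ∨
        ∃ m₁ m₂ : ℕ, 1 ≤ m₁ ∧ 1 ≤ m₂ ∧ m₁ + m₂ = m ∧ m₁ ≠ m₂ ∧
          (Set.range fun p => O *ᵥ φ p) =
            W ∩ {y | ∑ a : Fin (m + 2) with a.val < m₁ + 1, y a ^ 2 = 1 / 2 ∧
              ∑ a : Fin (m + 2) with m₁ + 1 ≤ a.val, y a ^ 2 = 1 / 2}) := by
  obtain ⟨Q, q1, q2, q3, q4⟩ := BiH.global_cone hm M φ hsphere hφ himm hb hp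
  exact BiH.open_part M φ hsphere hφ himm Q q1 q2 q3 q4

end Pool.Agent.Results.MP_ecb6bc_gt.LowDimension
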